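import Pool.Agent.R140.CMS.Main

set_option autoImplicit false

/-!
# MP_64f3b0_co, Q2: the symmetric decomposition of `h(sd(L), x)` need not be interlacing

The two-dimensional simplicial complex `L` on `{0,1,2,3,4,5}` with the ten triangles
`012, 023, 013, 015, 045, 014, 124, 135, 235, 245` (the edge `01` is in four triangles and each other edge in
two) is Cohen-Macaulay* over every field. Its barycentric subdivision has
`h(sd(L), x) = 1 + 27 x + 31 x^2 + x^3`, whose symmetric decomposition with respect to `3` is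
`a = 1 + 27 x + 27 x^2 + x^3 = (1 + x)(1 + 26 x + x^2)` and `b = 4 x`. The root `0` of `b` is larger than
all the roots of `a`.
-/

open Finset Polynomial Pool.Agent.R140.CMS

namespace Pool.Agent.Results.MP_64f3b0_co.NotInterlacing

theorem pa_isSymDecomp : IsSymDecomp 3 (hPoly 3 (sd L.faces)) pa pb := by
  have e : pa = 1 + C 27 * Polynomial.X + C 27 * Polynomial.X ^ 2 + Polynomial.X ^ 3 := rfl
  have hda : pa.natDegree ≤ 3 := by
    rw [e]
    compute_degree
  have hdb : pb.natDegree ≤ 2 := by
    rw [pb]
    compute_degree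
    norm_num
  refine ⟨?_, hda, ?_, hdb, ?_⟩
  · rw [hPoly_L, pa, pb]
    have k4 : (C (27 : ℝ) : ℝ[X]) = 27 := by norm_num [map_ofNat]
    have k5 : (C (31 : ℝ) : ℝ[X]) = 31 := by norm_num [map_ofNat]
    have k6 : (C (4 : ℝ) : ℝ[X]) = 4 := by norm_num [map_ofNat]
    rw [k4, k5, k6]
    ring
  · ext i
    rw [coeff_reflect]
    rcases Nat.lt_or_ge i 4 with hi | hi
    · rw [revAt_le (by omega)]
      interval_cases i <;>
        simp only [pa, coeff_add, coeff_C_mul, coeff_X_pow, coeff_X, coeff_one] <;> norm_num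
    · rw [revAt_eq_self_of_lt (by omega)]
  · ext i
    rw [coeff_reflect]
    rcases Nat.lt_or_ge i 3 with hi | hi
    · rw [revAt_le (by omega)]
      interval_cases i <;>
        simp only [pb, coeff_C_mul, coeff_X] <;> norm_num
    · rw [revAt_eq_self_of_lt (by omega)]

theorem pa_root_neg {r : ℝ} (hr : r ∈ pa.roots) : r < 0 := by
  have h := isRoot_of_mem_roots hr
  rw [IsRoot.def, pa] at h
  simp only [eval_add, eval_one, eval_mul, eval_C, eval_X, eval_pow] at h
  by_contra hc
  push Not at hc
  have h1 : 0 ≤ r ^ 2 := by positivity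
  have h2 : 0 ≤ r ^ 3 := by positivity
  linarith

theorem pa_ne : pa ≠ 0 := by
  intro h
  have := congrArg (fun p => eval 0 p) h
  simp [pa] at this

theorem pa_root : (-1 : ℝ) ∈ pa.roots := by
  rw [mem_roots pa_ne, IsRoot.def, pa]
  simp only [eval_add, eval_one, eval_mul, eval_C, eval_X, eval_pow]
  norm_num

theorem pb_roots : pb.roots = {0} := by
  rw [pb, roots_C_mul _ (by norm_num), roots_X]

theorem not_interlaces : ¬ Interlaces pb pa := by
  have hpb : pb ≠ 0 := by
    intro h
    have := congrArg (fun p => coeff p 1) h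
    simp [pb] at this
  rintro (h | h | ⟨h, -⟩)
  · exact hpb h
  · exact pa_ne h
  · have hb : rootList pb = [0] := by
      rw [rootList, pb_roots]
      simp
    have ha : 0 < (rootList pa).length := by
      rw [rootList, Multiset.length_sort]
      exact Multiset.card_pos_iff_exists_mem.2 ⟨_, pa_root⟩
    have h1 := h 0 (by rw [hb]; simp) ha
    have h2 : (rootList pa)[0] ∈ pa.roots := by
      have : (rootList pa)[0] ∈ pa.roots.sort (· ≥ ·) := List.getElem_mem ha
      exact (Multiset.mem_sort _).1 this
    have h3 := pa_root_neg h2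
    simp only [hb, List.getElem_cons_zero] at h1
    linarith

/-- For every field `k` there is a two-dimensional Cohen-Macaulay* simplicial complex `X` such that, in the
(unique) symmetric decomposition `h(sd(X), x) = a + x b` with respect to `3`, `b` does not interlace `a`. -/
theorem result (k : Type*) [Field k] :
    (∃ X : Cpx, CMStar k 3 X.faces ∧
      hPoly 3 (sd X.faces) =
        1 + C 27 * Polynomial.X + C 31 * Polynomial.X ^ 2 + Polynomial.X ^ 3 ∧
      ∃ a b : ℝ[X], IsSymDecomp 3 (hPoly 3 (sd X.faces)) a b ∧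
        (∀ a' b' : ℝ[X], IsSymDecomp 3 (hPoly 3 (sd X.faces)) a' b' → a' = a ∧ b' = b) ∧
        ¬ Interlaces b a) ∧
    ¬ ∀ n : ℕ, 1 ≤ n → ∀ X : Cpx, CMStar k n X.faces →
      ∀ a b : ℝ[X], IsSymDecomp n (hPoly n (sd X.faces)) a b → Interlaces b a := by
  refine ⟨⟨L, cmStar k, hPoly_L, pa, pb, pa_isSymDecomp, fun _ _ h => unique_dec h,
    not_interlaces⟩, ?_⟩
  intro h
  exact not_interlaces (h 3 (by norm_num) L (cmStar k) pa pb pa_isSymDecomp)

end Pool.Agent.Results.MP_64f3b0_co.NotInterlacing
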